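import Pool.Agent.H634R2.Clique
import Pool.Agent.H601R2.PP
import Pool.Agent.NPC.Dec

/-!
# The unweighted red-blue `s`-`t` cut problem in undirected graphs: definitions and reduction
-/

set_option autoImplicit false

namespace Pool.Agent.H66RB

open Pool.Agent.NPC Pool.Agent.NPC.H634R2

/-- An instance `((V, E), (s, t), (r, b))`: the list `V` of the vertices, the list `E` of the edges,
each given by its two end vertices and its colour (`true` is red, `false` is blue), two vertices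
`s` and `t`, two natural numbers `r` and `b` (coded in binary). -/
abbrev Inst : Type := (List ℕ × List ((ℕ × ℕ) × Bool)) × (ℕ × ℕ) × (ℕ × ℕ)

/-- The instance describes a finite simple undirected graph (no loops, no parallel edges, each vertex
and each edge listed once) whose edges are coloured, and two distinct vertices `s` and `t`. -/
def IsInstance (I : Inst) : Prop :=
  IsGraph I.1.1 (I.1.2.map fun e => e.1) ∧ I.2.1.1 ∈ I.1.1 ∧ I.2.1.2 ∈ I.1.1 ∧ I.2.1.1 ≠ I.2.1.2

/-- The number of edges of colour `c` in the cut `δ(X)`: those with exactly one end vertex in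
`X`. -/
def cutSize (E : List ((ℕ × ℕ) × Bool)) (c : Bool) (X : Finset ℕ) : ℕ :=
  E.countP fun e => decide (e.2 = c ∧ ¬ (e.1.1 ∈ X ↔ e.1.2 ∈ X))

/-- Some `s`-`t` cut `δ(X)` contains at most `r` red edges and at most `b` blue edges. -/
def HasCut (I : Inst) : Prop :=
  ∃ X : Finset ℕ, (∀ x ∈ X, x ∈ I.1.1) ∧ I.2.1.1 ∈ X ∧ I.2.1.2 ∉ X ∧
    cutSize I.1.2 true X ≤ I.2.2.1 ∧ cutSize I.1.2 false X ≤ I.2.2.2

/-- The unweighted red-blue `s`-`t` cut problem in undirected graphs. -/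
def RedBlueCut (I : Inst) : Prop := IsInstance I ∧ HasCut I

/-! ### The reduction from the clique problem -/

/-- the three red edges of the `i`-th edge `e` of the given graph -/
def tri (p : (ℕ × ℕ) × ℕ) : List ((ℕ × ℕ) × Bool) :=
  [((0, 2 * p.2 + 3), true), ((2 * p.2 + 3, 2 * p.1.1 + 2), true),
    ((2 * p.2 + 3, 2 * p.1.2 + 2), true)]

/-- the edges of the instance -/
def mE (V : List ℕ) (E : List (ℕ × ℕ)) : List ((ℕ × ℕ) × Bool) :=
  E.zipIdx.flatMap tri ++ V.map fun v => ((2 * v + 2, 1), false)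

/-- the vertices of the instance -/
def mV (V : List ℕ) (E : List (ℕ × ℕ)) : List ℕ :=
  0 :: 1 :: (V.map (fun v => 2 * v + 2) ++ E.zipIdx.map fun p => 2 * p.2 + 3)

/-- an instance without solution -/
def noInst : Inst := (([0, 1], [((0, 1), true)]), (0, 1), (0, 0))

/-- the reduction -/
def red (I : (List ℕ × List (ℕ × ℕ)) × ℕ) : Inst :=
  if I.2 * (I.2 - 1) / 2 ≤ I.1.2.length then
    ((mV I.1.1 I.1.2, mE I.1.1 I.1.2), (0, 1), (I.1.2.length - I.2 * (I.2 - 1) / 2, I.2))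
  else noInst

theorem poly_red : Poly red := by
  unfold red mV mE tri
  fun_prop

theorem not_hasCut_noInst : ¬ HasCut noInst := by
  rintro ⟨X, -, h0, h1, h2, -⟩
  have h0' : (0 : ℕ) ∈ X := h0
  have h1' : (1 : ℕ) ∉ X := h1
  have h3 : cutSize noInst.1.2 true X = 1 := by
    simp [cutSize, noInst, h0', h1']
  rw [h3] at h2
  simp [noInst] at h2

/-! ### Counting -/

/-- number of edges of the given graph inside the set -/
def inside (E : List (ℕ × ℕ)) (X : Finset ℕ) : ℕ :=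
  E.countP fun e => decide (2 * e.1 + 2 ∈ X ∧ 2 * e.2 + 2 ∈ X)

theorem cut_blue (V : List ℕ) (E : List (ℕ × ℕ)) (X : Finset ℕ) (h1 : 1 ∉ X) :
    cutSize (mE V E) false X = V.countP fun v => decide (2 * v + 2 ∈ X) := by
  unfold cutSize mE
  rw [List.countP_append, List.countP_flatMap]
  have h3 : (List.map (List.countP (fun e : (ℕ × ℕ) × Bool => decide (e.2 = false ∧ ¬ (e.1.1 ∈ X ↔ e.1.2 ∈ X))) ∘ tri)
      E.zipIdx).sum = 0 := by
    rw [List.sum_eq_zero]
    intro x hx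
    rw [List.mem_map] at hx
    obtain ⟨p, -, rfl⟩ := hx
    simp [tri]
  rw [h3, zero_add, List.countP_map]
  congr 1
  funext v
  simp [h1]

theorem countP_zipIdx {α : Type} (l : List α) (p : α → Bool) :
    l.zipIdx.countP (fun q => p q.1) = l.countP p := by
  have h : l.zipIdx.map (fun q => q.1) = l := by
    rw [show (fun q : α × ℕ => q.1) = Prod.fst from rfl, List.zipIdx_map_fst]
  conv_rhs => rw [← h]
  rw [List.countP_map]
  rfl

/-- red edges at the `i`-th edge -/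
def triCut (X : Finset ℕ) (p : (ℕ × ℕ) × ℕ) : ℕ :=
  (tri p).countP fun e => decide (e.2 = true ∧ ¬ (e.1.1 ∈ X ↔ e.1.2 ∈ X))

theorem cut_red (V : List ℕ) (E : List (ℕ × ℕ)) (X : Finset ℕ) :
    cutSize (mE V E) true X = (E.zipIdx.map (triCut X)).sum := by
  unfold cutSize mE
  rw [List.countP_append, List.countP_flatMap]
  have h3 : List.countP (fun e : (ℕ × ℕ) × Bool => decide (e.2 = true ∧ ¬ (e.1.1 ∈ X ↔ e.1.2 ∈ X)))
      (V.map fun v => ((2 * v + 2, 1), false)) = 0 := by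
    rw [List.countP_eq_zero]
    intro x hx
    rw [List.mem_map] at hx
    obtain ⟨p, -, rfl⟩ := hx
    simp
  rw [h3, add_zero]
  rfl

theorem triCut_ge (X : Finset ℕ) (h0 : 0 ∈ X) (p : (ℕ × ℕ) × ℕ) :
    1 ≤ triCut X p + (if 2 * p.1.1 + 2 ∈ X ∧ 2 * p.1.2 + 2 ∈ X then 1 else 0) := by
  unfold triCut tri
  by_cases h1 : 2 * p.2 + 3 ∈ X <;> by_cases h2 : 2 * p.1.1 + 2 ∈ X <;>
    by_cases h3 : 2 * p.1.2 + 2 ∈ X <;> simp [h0, h1, h2, h3]

theorem triCut_eq (X : Finset ℕ) (h0 : 0 ∈ X) (p : (ℕ × ℕ) × ℕ)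
    (h : 2 * p.2 + 3 ∈ X ↔ (2 * p.1.1 + 2 ∈ X ∨ 2 * p.1.2 + 2 ∈ X)) :
    triCut X p + (if 2 * p.1.1 + 2 ∈ X ∧ 2 * p.1.2 + 2 ∈ X then 1 else 0) = 1 := by
  unfold triCut tri
  by_cases h2 : 2 * p.1.1 + 2 ∈ X <;>
    by_cases h3 : 2 * p.1.2 + 2 ∈ X <;> simp [h0, h, h2, h3]

theorem sum_ite_eq_countP {α : Type} (l : List α) (p : α → Prop) [DecidablePred p] :
    (l.map fun a => if p a then 1 else 0).sum = l.countP fun a => decide (p a) := by
  induction l with
  | nil => rfl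
  | cons a l ih =>
    rw [List.map_cons, List.sum_cons, ih, List.countP_cons]
    by_cases h : p a <;> simp [h, add_comm]

theorem inside_eq (E : List (ℕ × ℕ)) (X : Finset ℕ) : inside E X =
    (E.zipIdx.map fun p => if 2 * p.1.1 + 2 ∈ X ∧ 2 * p.1.2 + 2 ∈ X then 1 else 0).sum := by
  rw [sum_ite_eq_countP]
  exact (countP_zipIdx E fun e => decide (2 * e.1 + 2 ∈ X ∧ 2 * e.2 + 2 ∈ X)).symm

theorem red_ge (V : List ℕ) (E : List (ℕ × ℕ)) (X : Finset ℕ) (h0 : 0 ∈ X) :
    E.length ≤ cutSize (mE V E) true X + inside E X := by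
  rw [cut_red, inside_eq, ← List.sum_map_add]
  have h : (E.zipIdx.map fun _ => 1).sum = E.length := by simp
  rw [← h]
  exact List.sum_le_sum fun p _ => triCut_ge X h0 p

theorem red_eq (V : List ℕ) (E : List (ℕ × ℕ)) (X : Finset ℕ) (h0 : 0 ∈ X)
    (h : ∀ p ∈ E.zipIdx, (2 * p.2 + 3 ∈ X ↔ (2 * p.1.1 + 2 ∈ X ∨ 2 * p.1.2 + 2 ∈ X))) :
    cutSize (mE V E) true X + inside E X = E.length := by
  rw [cut_red, inside_eq, ← List.sum_map_add]
  have h' : (E.zipIdx.map fun _ => 1).sum = E.length := by simp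
  rw [← h']
  congr 1
  exact List.map_congr_left fun p hp => triCut_eq X h0 p (h p hp)

end Pool.Agent.H66RB
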