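import Pool.Agent.H66RB.Basic

/-!
# Correctness of the reduction
-/

set_option autoImplicit false

namespace Pool.Agent.H66RB

open Pool.Agent.NPC Pool.Agent.NPC.H634R2

/-- the vertices of the given graph in the cut -/
def sel (V : List ℕ) (X : Finset ℕ) : Finset ℕ := (V.filter fun v => decide (2 * v + 2 ∈ X)).toFinset

theorem mem_sel {V : List ℕ} {X : Finset ℕ} {v : ℕ} : v ∈ sel V X ↔ v ∈ V ∧ 2 * v + 2 ∈ X := by
  unfold sel
  rw [List.mem_toFinset, List.mem_filter, decide_eq_true_eq]

theorem card_sel {V : List ℕ} (hV : V.Nodup) (X : Finset ℕ) :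
    (sel V X).card = V.countP fun v => decide (2 * v + 2 ∈ X) := by
  unfold sel
  rw [List.toFinset_card_of_nodup (hV.filter _), List.countP_eq_length_filter]

/-- the pairs in the set which are edges -/
def prsIn (E : List (ℕ × ℕ)) (X : Finset ℕ) : Finset (Sym2 ℕ) :=
  ((E.filter fun e => decide (2 * e.1 + 2 ∈ X ∧ 2 * e.2 + 2 ∈ X)).map fun e => s(e.1, e.2)).toFinset

theorem card_prsIn {E : List (ℕ × ℕ)} (hE : (E.map fun e => s(e.1, e.2)).Nodup) (X : Finset ℕ) :
    (prsIn E X).card = inside E X := by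
  unfold prsIn inside
  rw [List.toFinset_card_of_nodup, List.length_map, List.countP_eq_length_filter]
  exact List.Nodup.sublist (List.Sublist.map _ List.filter_sublist) hE

theorem mem_prsIn {E : List (ℕ × ℕ)} {X : Finset ℕ} {z : Sym2 ℕ} :
    z ∈ prsIn E X ↔ ∃ e ∈ E, (2 * e.1 + 2 ∈ X ∧ 2 * e.2 + 2 ∈ X) ∧ s(e.1, e.2) = z := by
  unfold prsIn
  rw [List.mem_toFinset, List.mem_map]
  constructor
  · rintro ⟨e, he, rfl⟩
    rw [List.mem_filter, decide_eq_true_eq] at he
    exact ⟨e, he.1, he.2, rfl⟩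
  · rintro ⟨e, he, h, rfl⟩
    exact ⟨e, List.mem_filter.2 ⟨he, by simpa using h⟩, rfl⟩

theorem prsIn_subset {V : List ℕ} {E : List (ℕ × ℕ)} (hG : IsGraph V E) (X : Finset ℕ) :
    prsIn E X ⊆ (sel V X).offDiag.image (fun p => s(p.1, p.2)) := by
  intro z hz
  obtain ⟨e, he, h, rfl⟩ := mem_prsIn.1 hz
  have h1 := hG.2.1 e he
  rw [Finset.mem_image]
  exact ⟨e, Finset.mem_offDiag.2 ⟨mem_sel.2 ⟨h1.1, h.1⟩, mem_sel.2 ⟨h1.2.1, h.2⟩, h1.2.2⟩, rfl⟩

theorem card_offDiag_image (S : Finset ℕ) :
    (S.offDiag.image fun p => s(p.1, p.2)).card = S.card.choose 2 :=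
  Sym2.card_image_offDiag S

theorem choose_two (k : ℕ) : k * (k - 1) / 2 = k.choose 2 := (Nat.choose_two_right k).symm

theorem choose_lt {j k : ℕ} (h : j < k) (hk : 2 ≤ k) : j.choose 2 < k.choose 2 := by
  obtain ⟨m, rfl⟩ : ∃ m, k = m + 1 := ⟨k - 1, by omega⟩
  have h1 : j.choose 2 ≤ m.choose 2 := Nat.choose_le_choose 2 (by omega)
  have h2 : (m + 1).choose 2 = m.choose 1 + m.choose 2 := Nat.choose_succ_succ m 1
  rw [Nat.choose_one_right] at h2
  omega

theorem of_cut {V : List ℕ} {E : List (ℕ × ℕ)} (hG : IsGraph V E) {k : ℕ} (hk : 2 ≤ k)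
    (hl : k * (k - 1) / 2 ≤ E.length) (h : HasCut (red ((V, E), k))) : HasClique V E k := by
  unfold red at h
  simp only [hl, if_true] at h
  obtain ⟨X, -, h0, h1, h2, h3⟩ := h
  simp only at h0 h1 h2 h3
  rw [cut_blue V E X h1, ← card_sel hG.1] at h3
  have h4 := red_ge V E X h0
  rw [← card_prsIn hG.2.2] at h4
  have h5 := Finset.card_le_card (prsIn_subset hG X)
  rw [card_offDiag_image] at h5
  rw [choose_two] at h2 hl
  have h6 : k.choose 2 ≤ (sel V X).card.choose 2 := by omega
  have h7 : (sel V X).card = k := by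
    by_contra hne
    have := choose_lt (lt_of_le_of_ne h3 hne) hk
    omega
  have h8 : prsIn E X = (sel V X).offDiag.image (fun p => s(p.1, p.2)) := by
    refine Finset.eq_of_subset_of_card_le (prsIn_subset hG X) ?_
    rw [card_offDiag_image, h7]
    omega
  refine ⟨sel V X, fun v hv => (mem_sel.1 hv).1, h7, fun u hu v hv huv => ?_⟩
  have h9 : s(u, v) ∈ prsIn E X := by
    rw [h8, Finset.mem_image]
    exact ⟨(u, v), Finset.mem_offDiag.2 ⟨hu, hv, huv⟩, rfl⟩
  obtain ⟨e, he, -, h10⟩ := mem_prsIn.1 h9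
  rw [Sym2.eq_iff] at h10
  rcases h10 with ⟨h11, h12⟩ | ⟨h11, h12⟩
  · left; rw [← h11, ← h12]; exact he
  · right; rw [← h11, ← h12]; exact he

/-- the cut given by a clique -/
def cutOf (E : List (ℕ × ℕ)) (K : Finset ℕ) : Finset ℕ :=
  insert 0 (K.image (fun v => 2 * v + 2) ∪
    ((E.zipIdx.filter fun p => decide (p.1.1 ∈ K ∨ p.1.2 ∈ K)).map fun p => 2 * p.2 + 3).toFinset)

theorem even_mem_cutOf {E : List (ℕ × ℕ)} {K : Finset ℕ} {v : ℕ} :
    2 * v + 2 ∈ cutOf E K ↔ v ∈ K := by
  unfold cutOf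
  simp only [Finset.mem_insert, Finset.mem_union, Finset.mem_image, List.mem_toFinset, List.mem_map]
  constructor
  · rintro (h | ⟨w, hw, h⟩ | ⟨p, -, h⟩)
    · omega
    · have : w = v := by omega
      exact this ▸ hw
    · omega
  · intro h
    exact Or.inr (Or.inl ⟨v, h, rfl⟩)

theorem odd_mem_cutOf {E : List (ℕ × ℕ)} {K : Finset ℕ} {p : (ℕ × ℕ) × ℕ} (hp : p ∈ E.zipIdx) :
    2 * p.2 + 3 ∈ cutOf E K ↔ (p.1.1 ∈ K ∨ p.1.2 ∈ K) := by
  unfold cutOf
  simp only [Finset.mem_insert, Finset.mem_union, Finset.mem_image, List.mem_toFinset, List.mem_map,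
    List.mem_filter, decide_eq_true_eq]
  constructor
  · rintro (h | ⟨w, -, h⟩ | ⟨q, ⟨hq, hqK⟩, h⟩)
    · omega
    · omega
    · have h1 : q.2 = p.2 := by omega
      have h2 : q.1 = p.1 := by
        rw [List.mem_zipIdx_iff_getElem?] at hp hq
        rw [h1, hp] at hq
        exact (Option.some.inj hq).symm
      rw [h2] at hqK
      exact hqK
  · intro h
    exact Or.inr (Or.inr ⟨p, ⟨hp, h⟩, rfl⟩)

theorem to_cut {V : List ℕ} {E : List (ℕ × ℕ)} (hG : IsGraph V E) {k : ℕ}
    (h : HasClique V E k) : HasCut (red ((V, E), k)) := by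
  obtain ⟨K, hKV, hK, hadj⟩ := h
  have h0 : 0 ∈ cutOf E K := by unfold cutOf; simp
  have h1 : 1 ∉ cutOf E K := by
    unfold cutOf
    simp only [Finset.mem_insert, Finset.mem_union, Finset.mem_image, List.mem_toFinset,
      List.mem_map, not_or, not_exists, not_and]
    refine ⟨one_ne_zero, fun v _ => by omega, fun p _ => by omega⟩
  have hsel : sel V (cutOf E K) = K := by
    ext v
    rw [mem_sel, even_mem_cutOf]
    exact ⟨fun h => h.2, fun h => ⟨hKV v h, h⟩⟩
  have hin : prsIn E (cutOf E K) = K.offDiag.image (fun p => s(p.1, p.2)) := by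
    refine Finset.Subset.antisymm (by
      have := prsIn_subset hG (cutOf E K)
      rwa [hsel] at this) ?_
    intro z hz
    rw [Finset.mem_image] at hz
    obtain ⟨p, hp, rfl⟩ := hz
    rw [Finset.mem_offDiag] at hp
    rw [mem_prsIn]
    rcases hadj _ hp.1 _ hp.2.1 hp.2.2 with h | h
    · exact ⟨_, h, ⟨even_mem_cutOf.2 hp.1, even_mem_cutOf.2 hp.2.1⟩, rfl⟩
    · exact ⟨_, h, ⟨even_mem_cutOf.2 hp.2.1, even_mem_cutOf.2 hp.1⟩, Sym2.eq_swap⟩
  have hcard : inside E (cutOf E K) = k.choose 2 := by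
    rw [← card_prsIn hG.2.2, hin, card_offDiag_image, hK]
  have hl : k * (k - 1) / 2 ≤ E.length := by
    rw [choose_two, ← hcard]
    exact List.countP_le_length
  have hred : red ((V, E), k) = ((mV V E, mE V E), (0, 1), (E.length - k * (k - 1) / 2, k)) := by
    unfold red
    simp only [hl, if_true]
  rw [hred]
  refine ⟨cutOf E K, ?_, h0, h1, ?_, ?_⟩
  · intro x hx
    unfold cutOf at hx
    simp only [Finset.mem_insert, Finset.mem_union, Finset.mem_image, List.mem_toFinset,
      List.mem_map, List.mem_filter] at hx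
    simp only [mV, List.mem_cons, List.mem_append, List.mem_map]
    rcases hx with rfl | ⟨v, hv, rfl⟩ | ⟨p, ⟨hp, -⟩, rfl⟩
    · exact Or.inl rfl
    · exact Or.inr (Or.inr (Or.inl ⟨v, hKV v hv, rfl⟩))
    · exact Or.inr (Or.inr (Or.inr ⟨p, hp, rfl⟩))
  · have h2 := red_eq V E (cutOf E K) h0 (fun p hp => by
      rw [odd_mem_cutOf hp, even_mem_cutOf, even_mem_cutOf])
    simp only
    rw [choose_two]
    omega
  · simp only
    rw [cut_blue V E _ h1, ← card_sel hG.1, hsel, hK]

theorem mem_mE {V : List ℕ} {E : List (ℕ × ℕ)} {e : (ℕ × ℕ) × Bool} (h : e ∈ mE V E) :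
    (∃ p ∈ E.zipIdx, e ∈ tri p) ∨ ∃ v ∈ V, e = ((2 * v + 2, 1), false) := by
  unfold mE at h
  rw [List.mem_append, List.mem_flatMap, List.mem_map] at h
  rcases h with h | ⟨v, hv, rfl⟩
  · exact Or.inl h
  · exact Or.inr ⟨v, hv, rfl⟩

theorem fst_mem_of_zipIdx {α : Type} {l : List α} {p : α × ℕ} (h : p ∈ l.zipIdx) : p.1 ∈ l := by
  rw [List.mem_zipIdx_iff_getElem?] at h
  exact List.mem_of_getElem? h

theorem isInstance_mk {V : List ℕ} {E : List (ℕ × ℕ)} (hG : IsGraph V E) (r b : ℕ) :
    IsInstance ((mV V E, mE V E), (0, 1), (r, b)) := by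
  refine ⟨⟨?_, ?_, ?_⟩, by simp [mV], by simp [mV], by simp⟩
  · -- vertices
    have hidx : (E.zipIdx.map fun p => 2 * p.2 + 3).Nodup := by
      have h1 : (E.zipIdx.map fun p => p.2).Nodup := by
        rw [show (fun p : (ℕ × ℕ) × ℕ => p.2) = Prod.snd from rfl, List.zipIdx_map_snd]
        exact List.nodup_range' (step := 1)
      have h2 : (E.zipIdx.map fun p => 2 * p.2 + 3) = (E.zipIdx.map fun p => p.2).map fun i => 2 * i + 3 := by
        rw [List.map_map]; rfl
      rw [h2]
      exact h1.map fun a b h => by simpa using h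
    have hv : (V.map fun v => 2 * v + 2).Nodup := hG.1.map fun a b h => by simpa using h
    have h12 : (V.map (fun v => 2 * v + 2) ++
        E.zipIdx.map fun p : (ℕ × ℕ) × ℕ => 2 * p.2 + 3).Nodup := by
      rw [List.nodup_append]
      refine ⟨hv, hidx, ?_⟩
      intro a ha b hb
      rw [List.mem_map] at ha hb
      obtain ⟨v, -, rfl⟩ := ha
      obtain ⟨p, -, rfl⟩ := hb
      omega
    unfold mV
    simp only
    rw [List.nodup_cons, List.nodup_cons]
    refine ⟨?_, ?_, h12⟩
    · simp only [List.mem_cons, List.mem_append, List.mem_map, not_or, not_exists, not_and]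
      exact ⟨by omega, fun v _ => by omega, fun v _ => by omega⟩
    · simp only [List.mem_append, List.mem_map, not_or, not_exists, not_and]
      exact ⟨fun v _ => by omega, fun v _ => by omega⟩
  · -- ends
    intro e he
    simp only [List.mem_map] at he
    obtain ⟨e, he, rfl⟩ := he
    rcases mem_mE he with ⟨p, hp, h⟩ | ⟨v, hv, rfl⟩
    · have h1 := hG.2.1 p.1 (fst_mem_of_zipIdx hp)
      have m0 : 0 ∈ mV V E := by simp [mV]
      have mi : 2 * p.2 + 3 ∈ mV V E := by
        simp only [mV, List.mem_cons, List.mem_append, List.mem_map]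
        exact Or.inr (Or.inr (Or.inr ⟨p, hp, rfl⟩))
      have m1 : 2 * p.1.1 + 2 ∈ mV V E := by
        simp only [mV, List.mem_cons, List.mem_append, List.mem_map]
        exact Or.inr (Or.inr (Or.inl ⟨_, h1.1, rfl⟩))
      have m2 : 2 * p.1.2 + 2 ∈ mV V E := by
        simp only [mV, List.mem_cons, List.mem_append, List.mem_map]
        exact Or.inr (Or.inr (Or.inl ⟨_, h1.2.1, rfl⟩))
      unfold tri at h
      simp only [List.mem_cons, List.not_mem_nil, or_false] at h
      rcases h with rfl | rfl | rfl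
      · exact ⟨m0, mi, by simp⟩
      · exact ⟨mi, m1, by simp only; omega⟩
      · exact ⟨mi, m2, by simp only; omega⟩
    · refine ⟨?_, by simp [mV], by simp only; omega⟩
      simp only [mV, List.mem_cons, List.mem_append, List.mem_map]
      exact Or.inr (Or.inr (Or.inl ⟨v, hv, rfl⟩))
  · -- no parallel edges
    simp only [List.map_map]
    unfold mE
    rw [List.map_append, List.nodup_append]
    refine ⟨?_, ?_, ?_⟩
    · rw [List.map_flatMap, List.nodup_flatMap]
      constructor
      · intro p hp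
        have h1 := hG.2.1 p.1 (fst_mem_of_zipIdx hp)
        unfold tri
        simp only [List.map_cons, List.map_nil, Function.comp, List.nodup_cons, List.mem_cons,
          List.not_mem_nil, or_false, not_or, Sym2.eq_iff, List.nodup_nil, and_true, not_false_eq_true]
        have := h1.2.2
        omega
      · have h1 : (E.zipIdx.map fun p => p.2).Nodup := by
          rw [show (fun p : (ℕ × ℕ) × ℕ => p.2) = Prod.snd from rfl, List.zipIdx_map_snd]
          exact List.nodup_range' (step := 1)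
        rw [List.nodup_iff_pairwise_ne, List.pairwise_map] at h1
        refine h1.imp ?_
        intro p q hpq z hz hz'
        unfold tri at hz hz'
        simp only [List.map_cons, List.map_nil, Function.comp, List.mem_cons,
          List.not_mem_nil, or_false] at hz hz'
        rcases hz with rfl | rfl | rfl <;> rcases hz' with h | h | h <;>
          rw [Sym2.eq_iff] at h <;> omega
    · rw [List.map_map]
      refine List.Nodup.map_on ?_ hG.1
      intro a _ b _ h
      simp only [Function.comp, Sym2.eq_iff] at h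
      omega
    · intro z hz w hw hzw
      subst hzw
      rw [List.mem_map] at hz hw
      obtain ⟨e, he, rfl⟩ := hz
      obtain ⟨f, hf, h⟩ := hw
      rw [List.mem_flatMap] at he
      obtain ⟨p, -, hp⟩ := he
      rw [List.mem_map] at hf
      obtain ⟨v, -, rfl⟩ := hf
      unfold tri at hp
      simp only [List.mem_cons, List.not_mem_nil, or_false] at hp
      simp only [Function.comp, Sym2.eq_iff] at h
      rcases hp with rfl | rfl | rfl <;> simp only at h <;> omega

theorem isInstance_noInst : IsInstance noInst := by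
  refine ⟨⟨?_, ?_, ?_⟩, ?_, ?_, ?_⟩ <;> simp [noInst]

theorem isInstance_red {V : List ℕ} {E : List (ℕ × ℕ)} (hG : IsGraph V E) (k : ℕ) :
    IsInstance (red ((V, E), k)) := by
  unfold red
  split_ifs
  · exact isInstance_mk hG _ _
  · exact isInstance_noInst

/-- All edges join an even and an odd vertex, and all blue edges are incident to `t`. -/
def Restricted (I : Inst) : Prop :=
  ∀ e ∈ I.1.2, (e.1.1 % 2 ≠ e.1.2 % 2) ∧ (e.2 = false → e.1.2 = I.2.1.2)

theorem restricted_red (I : (List ℕ × List (ℕ × ℕ)) × ℕ) : Restricted (red I) := by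
  unfold red
  split_ifs
  · intro e he
    rcases mem_mE he with ⟨p, hp, h⟩ | ⟨v, hv, rfl⟩
    · unfold tri at h
      simp only [List.mem_cons, List.not_mem_nil, or_false] at h
      rcases h with rfl | rfl | rfl <;> simp only [reduceCtorEq, false_imp_iff, and_true] <;> omega
    · simp only [forall_const, and_true]
      omega
  · intro e he
    simp only [noInst, List.mem_singleton] at he
    subst he
    simp

theorem red_iff {V : List ℕ} {E : List (ℕ × ℕ)} (hG : IsGraph V E) {k : ℕ} (hk : 2 ≤ k) :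
    HasClique V E k ↔ HasCut (red ((V, E), k)) := by
  refine ⟨to_cut hG, fun h => ?_⟩
  by_cases hl : k * (k - 1) / 2 ≤ E.length
  · exact of_cut hG hk hl h
  · have : red ((V, E), k) = noInst := by
      unfold red
      simp only [hl, if_false]
    rw [this] at h
    exact absurd h not_hasCut_noInst

theorem hardPr : HardPr (fun I => IsInstance I ∧ Restricted I) RedBlueCut := by
  refine hardPr_CLIQUE.trans poly_red ?_ ?_
  · rintro ⟨⟨V, E⟩, k⟩ ⟨hG, -⟩
    exact ⟨isInstance_red hG k, restricted_red _⟩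
  · rintro ⟨⟨V, E⟩, k⟩ ⟨hG, hk⟩
    unfold CLIQUE RedBlueCut
    simp only at hG hk ⊢
    rw [red_iff hG hk]
    exact ⟨fun h => ⟨isInstance_red hG k, h.2⟩, fun h => ⟨hG, h.2⟩⟩

end Pool.Agent.H66RB
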