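import Pool.Agent.H66RB.Main

/-!
# The red-blue cut problem lies in `NP`
-/

set_option autoImplicit false

namespace Pool.Agent.H66RB

open Pool.Agent.NPC Pool.Agent.NPC.H634R2

theorem nodup_iff_zipIdx {β : Type} (l : List β) :
    (∀ x ∈ l.zipIdx, ∀ y ∈ l.zipIdx, x.1 ≠ y.1 ∨ x.2 = y.2) ↔ l.Nodup := by
  rw [List.nodup_iff_injective_getElem]
  constructor
  · intro h i j hij
    have h1 := h (l[i], i.1) (by
      rw [List.mem_zipIdx_iff_getElem?]; simp) (l[j], j.1) (by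
      rw [List.mem_zipIdx_iff_getElem?]; simp)
    simp only at h1 hij
    rcases h1 with h1 | h1
    · exact absurd hij h1
    · exact Fin.ext h1
  · rintro h ⟨x, i⟩ hx ⟨y, j⟩ hy
    rw [List.mem_zipIdx_iff_getElem?] at hx hy
    simp only at hx hy ⊢
    by_cases hxy : x = y
    · right
      obtain ⟨hi, hi'⟩ := List.getElem?_eq_some_iff.1 hx
      obtain ⟨hj, hj'⟩ := List.getElem?_eq_some_iff.1 hy
      have := @h ⟨i, hi⟩ ⟨j, hj⟩ (by simp only; rw [hi', hj', hxy])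
      simpa using this
    · exact Or.inl hxy

theorem pp_nodup {α β : Type} [TEnc α] [TEnc β] {l : α → List β} (hl : Poly l) :
    PP (fun a => (l a).Nodup) := by
  refine PP.congr (p := fun a => ∀ x ∈ (l a).zipIdx, ∀ y ∈ (l a).zipIdx, x.1 ≠ y.1 ∨ x.2 = y.2)
    ?_ (fun a => nodup_iff_zipIdx _)
  refine PP.ball (r := fun a (x : β × ℕ) => ∀ y ∈ (l a).zipIdx, x.1 ≠ y.1 ∨ x.2 = y.2)
    (Poly.zipIdx hl) ?_
  refine PP.ball (l := fun z : α × (β × ℕ) => (l z.1).zipIdx)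
    (r := fun (z : α × (β × ℕ)) (y : β × ℕ) => z.2.1 ≠ y.1 ∨ z.2.2 = y.2)
    (Poly.zipIdx (hl.comp (Poly.fst Poly.id))) ?_
  exact PP.or (PP.ne (Poly.fst (Poly.snd (Poly.fst Poly.id))) (Poly.fst (Poly.snd Poly.id)))
    (PP.eq (Poly.snd (Poly.snd (Poly.fst Poly.id))) (Poly.snd (Poly.snd Poly.id)))

/-- the pair with its smaller entry first -/
def srt (e : ℕ × ℕ) : ℕ × ℕ := if e.1 < e.2 then e else (e.2, e.1)

theorem srt_inj (e f : ℕ × ℕ) : srt e = srt f ↔ s(e.1, e.2) = s(f.1, f.2) := by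
  obtain ⟨a, b⟩ := e
  obtain ⟨c, d⟩ := f
  simp only [srt, Sym2.eq_iff]
  split_ifs <;> simp only [Prod.mk.injEq] <;> omega

theorem nodup_srt (l : List (ℕ × ℕ)) :
    (l.map srt).Nodup ↔ (l.map (fun e => s(e.1, e.2))).Nodup := by
  induction l with
  | nil => simp
  | cons a l ih =>
    rw [List.map_cons, List.map_cons, List.nodup_cons, List.nodup_cons, ih]
    have : srt a ∈ l.map srt ↔ s(a.1, a.2) ∈ l.map (fun e => s(e.1, e.2)) := by
      rw [List.mem_map, List.mem_map]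
      constructor
      · rintro ⟨b, hb, h⟩
        exact ⟨b, hb, (srt_inj b a).1 h⟩
      · rintro ⟨b, hb, h⟩
        exact ⟨b, hb, (srt_inj b a).2 h⟩
    rw [this]

theorem poly_srt : Poly srt := by
  unfold srt
  exact PP.ite (PP.lt (Poly.fst Poly.id) (Poly.snd Poly.id)) Poly.id
    (Poly.pair (Poly.snd Poly.id) (Poly.fst Poly.id))

theorem pp_isInstance {α : Type} [TEnc α] {J : α → Inst} (hJ : Poly J) :
    PP (fun a => IsInstance (J a)) := by
  have hV : Poly (fun a => (J a).1.1) := Poly.fst (Poly.fst hJ)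
  have hE : Poly (fun a => (J a).1.2.map (fun e => e.1)) :=
    NPC.Poly.map (F := fun _ (e : (ℕ × ℕ) × Bool) => e.1) (Poly.snd (Poly.fst hJ))
      (Poly.fst (Poly.snd Poly.id))
  have hs : Poly (fun a => (J a).2.1.1) := Poly.fst (Poly.fst (Poly.snd hJ))
  have ht : Poly (fun a => (J a).2.1.2) := Poly.snd (Poly.fst (Poly.snd hJ))
  refine PP.and (PP.and (pp_nodup hV) (PP.and ?_ ?_)) (PP.and (PP.mem hs hV) (PP.and (PP.mem ht hV)
    (PP.ne hs ht)))
  · refine PP.ball (l := fun a => (J a).1.2.map (fun e => e.1))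
      (r := fun a (e : ℕ × ℕ) => e.1 ∈ (J a).1.1 ∧ e.2 ∈ (J a).1.1 ∧ e.1 ≠ e.2) hE ?_
    have h1 : Poly (fun x : α × (ℕ × ℕ) => (J x.1).1.1) := hV.comp (Poly.fst Poly.id)
    exact PP.and (PP.mem (Poly.fst (Poly.snd Poly.id)) h1)
      (PP.and (PP.mem (Poly.snd (Poly.snd Poly.id)) h1)
        (PP.ne (Poly.fst (Poly.snd Poly.id)) (Poly.snd (Poly.snd Poly.id))))
  · refine PP.congr (p := fun a => ((((J a).1.2.map (fun e => e.1)).map srt)).Nodup) ?_
      (fun a => nodup_srt _)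
    exact pp_nodup (NPC.Poly.map (F := fun _ e => srt e) hE (poly_srt.comp (Poly.snd Poly.id)))

/-- The number of cut edges, with the set given by a list. -/
def cutSizeL (E : List ((ℕ × ℕ) × Bool)) (c : Bool) (w : List ℕ) : ℕ :=
  (E.filter fun e => decide (e.2 = c ∧ ¬ (e.1.1 ∈ w ↔ e.1.2 ∈ w))).length

theorem cutSizeL_eq (E : List ((ℕ × ℕ) × Bool)) (c : Bool) (w : List ℕ) (X : Finset ℕ)
    (h : ∀ e ∈ E, (e.1.1 ∈ w ↔ e.1.1 ∈ X) ∧ (e.1.2 ∈ w ↔ e.1.2 ∈ X)) :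
    cutSizeL E c w = cutSize E c X := by
  unfold cutSizeL cutSize
  rw [← List.countP_eq_length_filter]
  refine List.countP_congr fun e he => ?_
  obtain ⟨h1, h2⟩ := h e he
  simp only [decide_eq_true_eq]
  rw [h1, h2]

/-- The relation verified in polynomial time. -/
def Rel (z : Inst × List ℕ) : Prop :=
  IsInstance z.1 ∧ z.1.2.1.1 ∈ z.2 ∧ z.1.2.1.2 ∉ z.2 ∧ (∀ x ∈ z.2, x ∈ z.1.1.1) ∧
    cutSizeL z.1.1.2 true z.2 ≤ z.1.2.2.1 ∧ cutSizeL z.1.1.2 false z.2 ≤ z.1.2.2.2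

theorem poly_cutSizeL (c : Bool) : Poly (fun z : Inst × List ℕ => cutSizeL z.1.1.2 c z.2) := by
  unfold cutSizeL
  refine Poly.length ?_
  refine PP.filter (l := fun z : Inst × List ℕ => z.1.1.2)
    (r := fun (z : Inst × List ℕ) (e : (ℕ × ℕ) × Bool) => e.2 = c ∧ ¬ (e.1.1 ∈ z.2 ↔ e.1.2 ∈ z.2))
    (Poly.snd (Poly.fst (Poly.fst Poly.id))) ?_
  have hw : Poly (fun x : (Inst × List ℕ) × ((ℕ × ℕ) × Bool) => x.1.2) :=
    Poly.snd (Poly.fst Poly.id)
  have h1 : Poly (fun x : (Inst × List ℕ) × ((ℕ × ℕ) × Bool) => x.2.1.1) :=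
    Poly.fst (Poly.fst (Poly.snd Poly.id))
  have h2 : Poly (fun x : (Inst × List ℕ) × ((ℕ × ℕ) × Bool) => x.2.1.2) :=
    Poly.snd (Poly.fst (Poly.snd Poly.id))
  refine PP.and (PP.eq (Poly.snd (Poly.snd Poly.id)) (NPC.Poly.const c)) (PP.not ?_)
  refine PP.congr (PP.or (PP.and (PP.mem h1 hw) (PP.mem h2 hw))
    (PP.and (PP.not (PP.mem h1 hw)) (PP.not (PP.mem h2 hw)))) fun a => ?_
  tauto

theorem pp_Rel : PP Rel := by
  have hI : Poly (fun z : Inst × List ℕ => z.1) := Poly.fst Poly.id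
  have hw : Poly (fun z : Inst × List ℕ => z.2) := Poly.snd Poly.id
  refine PP.and (pp_isInstance hI) (PP.and (PP.mem (Poly.fst (Poly.fst (Poly.snd hI))) hw)
    (PP.and (PP.not (PP.mem (Poly.snd (Poly.fst (Poly.snd hI))) hw)) (PP.and ?_
      (PP.and (PP.le (poly_cutSizeL true) (Poly.fst (Poly.snd (Poly.snd hI))))
        (PP.le (poly_cutSizeL false) (Poly.snd (Poly.snd (Poly.snd hI))))))))
  exact PP.ball (r := fun (z : Inst × List ℕ) x => x ∈ z.1.1.1) hw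
    (PP.mem (Poly.snd Poly.id) (Poly.fst (Poly.fst (hI.comp (Poly.fst Poly.id)))))

theorem sz_sublist {β : Type} [TEnc β] {l l' : List β} (h : l.Sublist l') : sz l ≤ sz l' := by
  induction h with
  | slnil => exact le_rfl
  | cons a _ ih =>
    rw [sz_list_cons]
    omega
  | cons_cons a _ ih =>
    rw [sz_list_cons, sz_list_cons]
    omega

theorem redBlueCut_iff (I : Inst) : RedBlueCut I ↔ ∃ w : List ℕ, sz w ≤ sz I ∧ Rel (I, w) := by
  classical
  constructor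
  · rintro ⟨hI, X, hX, hs, ht, hr, hb⟩
    have hmem : ∀ x, x ∈ I.1.1.filter (fun x => decide (x ∈ X)) ↔ x ∈ X := by
      intro x
      rw [List.mem_filter, decide_eq_true_eq]
      exact ⟨fun h => h.2, fun h => ⟨hX x h, h⟩⟩
    refine ⟨I.1.1.filter (fun x => decide (x ∈ X)), ?_, hI, (hmem _).2 hs,
      fun h => ht ((hmem _).1 h), fun x hx => hX x ((hmem x).1 hx), ?_, ?_⟩
    · have h1 := sz_sublist (List.filter_sublist (l := I.1.1) (p := fun x => decide (x ∈ X)))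
      have h2 : sz I = sz I.1 + sz I.2 + 1 := sz_pair _ _
      have h3 : sz I.1 = sz I.1.1 + sz I.1.2 + 1 := sz_pair _ _
      omega
    · rw [cutSizeL_eq _ _ _ X fun e _ => ⟨hmem _, hmem _⟩]
      exact hr
    · rw [cutSizeL_eq _ _ _ X fun e _ => ⟨hmem _, hmem _⟩]
      exact hb
  · rintro ⟨w, -, hI, hs, ht, hw, hr, hb⟩
    simp only at hI hs ht hw hr hb
    refine ⟨hI, w.toFinset, fun x hx => hw x (List.mem_toFinset.1 hx), List.mem_toFinset.2 hs,
      fun h => ht (List.mem_toFinset.1 h), ?_, ?_⟩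
    · rw [← cutSizeL_eq _ _ w w.toFinset fun e _ => ⟨List.mem_toFinset.symm, List.mem_toFinset.symm⟩]
      exact hr
    · rw [← cutSizeL_eq _ _ w w.toFinset fun e _ => ⟨List.mem_toFinset.symm, List.mem_toFinset.symm⟩]
      exact hb

theorem inNPP : InNPP RedBlueCut := by
  obtain ⟨R, hR, hR'⟩ := pp_Rel
  refine inNPP_of hR Polynomial.X fun I => ?_
  rw [redBlueCut_iff]
  simp only [Polynomial.eval_X, hR']

end Pool.Agent.H66RB
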